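import Pool.Agent.MWS.StmtsA

/-!
# Squad MWS, row CMM (helper74): commutative congruences
-/

namespace Pool.Agent.MWS.H74

open Pool.Agent.Helper14_MV Pool.Agent.Helper2_MV Pool.Agent.MVO Pool.Agent.MWL Pool.Agent.MWS

/-- the number of occurrences in a gathered block -/
theorem count_gb (n : ℕ → ℕ) (D : List ℕ) (c : ℕ) : (gb n D).count c = n c * D.count c := by
  induction D with
  | nil => simp [gb]
  | cons a D ih =>
    have h1 : gb n (a :: D) = List.replicate (n a) a ++ gb n D := rfl
    rw [h1, List.count_append, ih, List.count_replicate, List.count_cons]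
    by_cases h : a = c
    · subst h
      simp
      ring
    · simp [h]

/-- powers with exponent at least two -/
theorem pow_two {θ : FIC} (h : RR θ [0, 0] [0, 0, 0]) (c m : ℕ) :
    RR θ (List.replicate m c) (List.replicate (min m 2) c) := by
  induction m with
  | zero => exact RR.refl _
  | succ m ih =>
    rcases Nat.lt_or_ge m 2 with hm | hm
    · rw [Nat.min_eq_left (by omega)]
      exact RR.refl _
    · rw [Nat.min_eq_right (by omega)]
      rw [Nat.min_eq_right hm] at ih
      have h1 := (RR.refl (β := θ) [c]).append ih
      have h2 := (h.sub (fun _ => [c])).symm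
      have h3 : RR θ (c :: List.replicate m c) [c, c, c] := by simpa using h1
      have h4 : RR θ [c, c, c] [c, c] := by simpa using h2
      exact θ.trans h3 h4

theorem gb_min {θ : FIC} (h : RR θ [0, 0] [0, 0, 0]) (n : ℕ → ℕ) (F : List ℕ) :
    RR θ (gb n F) (gb (fun c => min (n c) 2) F) := by
  induction F with
  | nil => exact RR.refl _
  | cons a F ih => exact (pow_two h a (n a)).append ih

/-- **CMM** -/
theorem cmm (com : MVO.ComStmt) : CmmStmt := by
  intro β θ hβ hle hnc u v huv
  have hc : RR θ [0, 1] [1, 0] := not_not.1 hnc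
  have hap : RR θ [0, 0] [0, 0, 0] := hle _ _ hβ.ap
  have key : ∀ w : List ℕ, (∀ c ∈ w, c ∈ u ++ v) →
      RR θ w (gb (fun c => min (w.count c) 2) (u ++ v).dedup) := by
    intro w hw
    have h1 : RR θ w (gb (fun c => w.count c) (u ++ v).dedup) := by
      refine com θ _ _ hc fun c => ?_
      rw [count_gb]
      by_cases h : c ∈ w
      · rw [List.count_eq_one_of_mem (List.nodup_dedup _) (List.mem_dedup.2 (hw c h)), mul_one]
      · rw [List.count_eq_zero_of_not_mem h, zero_mul]
    exact θ.trans h1 (gb_min hap _ _)
  have h1 := key u fun c h => List.mem_append_left v h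
  have h2 := key v fun c h => List.mem_append_right u h
  have h3 : (fun c => min (u.count c) 2) = fun c => min (v.count c) 2 := funext huv
  rw [h3] at h1
  exact θ.trans h1 h2.symm

end Pool.Agent.MWS.H74
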